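import Pool.Agent.Lib.helper21.ABEnt

/-! The entropy of `f_{a,b}` lies between `log κ` and `log φ` on the whole parameter set. -/

set_option autoImplicit false

namespace Pool.Agent.Results.MP_bb7674_an.Range

open Pool.Agent.Lib.Helper21.ABDef Pool.Agent.Lib.Helper21.ABEnt

theorem result (κ : ℝ) (hκ : κ ^ 3 - κ ^ 2 - 1 = 0) (a b : ℝ) (P : Par a b) :
    ∃ h : ℝ, HasEnt a b h ∧ Real.log κ ≤ h ∧ h ≤ Real.log ((1 + √5) / 2) := by
  obtain ⟨h, H⟩ := exists_ent a b
  exact ⟨h, H, range hκ P H⟩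

end Pool.Agent.Results.MP_bb7674_an.Range
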